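import Pool.Agent.H10.CE.Targets

/-!
# The sum of the traces
-/

set_option autoImplicit false

open Finset Matrix Pool.Agent.H10.CE

namespace Pool.Agent.H23.CE

namespace TRB

theorem norm_ee (t : ℝ) : ‖ee t‖ = 1 := by
  unfold ee
  exact Complex.norm_exp_ofReal_mul_I _

theorem ite_le_ite {p q : Prop} {dp : Decidable p} {dq : Decidable q} {x y : ℝ} (hpq : p → q)
    (hxy : x ≤ y) (hy : 0 ≤ y) : @ite ℝ p dp x 0 ≤ @ite ℝ q dq y 0 := by
  by_cases hp : p
  · rw [if_pos hp, if_pos (hpq hp)]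
    exact hxy
  · rw [if_neg hp]
    by_cases hq : q
    · rw [if_pos hq]
      exact hy
    · rw [if_neg hq]

theorem uu_nonneg {m : ℕ} (e : Fin m → ℕ × ℕ) (t : Fin m) : 0 ≤ uu e t := by
  unfold uu
  split_ifs
  · positivity
  · norm_num

theorem rr_pos {m : ℕ} {R Q : ℝ} (hR : 0 < R) (hQ : 0 < Q) (e : Fin m → ℕ × ℕ) (t : Fin m) :
    0 < rr R Q e t := by
  unfold rr
  split_ifs
  · exact hQ
  · exact hR

end TRB

open TRB in
open Classical in
theorem pf_TRB (hWLK : T_WLK) (hEXP : T_EXP) (hNEW : T_NEW) (hCNT : T_CNT) : T_TRB := by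
  intro c S M P a Y₁ Y k α β R Q hc hS hSP hk hR hQ hQR
  have hP : 1 ≤ P := hS.trans hSP
  have hQ0 : 0 < Q := by
    rw [hQ]
    have h1 : (0 : ℝ) < k := by exact_mod_cast hk
    have h2 : (0 : ℝ) < P := by exact_mod_cast hP
    positivity
  have hR0 : 0 < R := by linarith
  have h44 : (2 : ℝ) ^ (2 * k) = 4 ^ k := by
    rw [pow_mul]
    norm_num
  have h16 : (16 : ℝ) ^ k = 4 ^ k * 4 ^ k := by
    rw [← mul_pow]
    norm_num
  obtain ⟨l, hldef⟩ : ∃ l : Ed M P → ℕ, l = fun x => lc S x.1 := ⟨_, rfl⟩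
  obtain ⟨r, hrdef⟩ : ∃ r : Ed M P → ℕ, r = fun x => rc S a x.1 := ⟨_, rfl⟩
  have hEd : ∀ e : Ed M P, e.1.1 < M ∧ e.1.2 ∈ Pr P := by
    rintro ⟨e, he⟩
    rw [Ed, mem_product, mem_range] at he
    exact he
  have hl : ∀ e : Ed M P, l e < M / S + 1 := by
    intro e
    rw [hldef]
    exact Nat.lt_succ_of_le (Nat.div_le_div_right (hEd e).1.le)
  have hr : ∀ e : Ed M P, r e < (M + 2 * a * P) / S + 1 := by
    intro e
    rw [hrdef]
    apply Nat.lt_succ_of_le
    apply Nat.div_le_div_right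
    have h1 := (hEd e).2
    rw [Pr, mem_filter, mem_Ioc] at h1
    have h2 : a * e.1.2 ≤ a * (2 * P) := Nat.mul_le_mul_left a h1.1.2
    have h3 := (hEd e).1
    have h4 : a * (2 * P) = 2 * a * P := by ring
    omega
  obtain ⟨Cl, hCl, htr⟩ := hWLK (Ed M P) (M / S + 1) ((M + 2 * a * P) / S + 1) k l r hk hl hr
  obtain ⟨φ, hφdef⟩ : ∃ φ : Ed M P → ℂ, φ = fun e => c e.1.2 * ee (α * e.1.1 + β * e.1.2) :=
    ⟨_, rfl⟩
  have hφ : ∀ e, ‖φ e‖ ≤ 1 := by
    intro e
    rw [hφdef]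
    simp only [norm_mul, norm_ee, mul_one]
    exact hc _
  obtain ⟨Φ, hΦdef⟩ : ∃ Φ : (Fin (2 * k) → Ed M P) → ℂ, Φ = fun w =>
    ∏ t : Fin (2 * k), (if (t : ℕ) % 2 = 0 then star (φ (w t)) else φ (w t)) := ⟨_, rfl⟩
  have hΦ : ∀ w, ‖Φ w‖ ≤ 1 := by
    intro w
    rw [hΦdef]
    simp only [norm_prod]
    apply prod_le_one
    · intro t _
      exact norm_nonneg _
    · intro t _
      split_ifs
      · rw [norm_star]
        exact hφ _
      · exact hφ _
  have htrace : ∀ y, (((mA c S M P a y (M / S + 1) ((M + 2 * a * P) / S + 1) α β)ᴴ *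
      mA c S M P a y (M / S + 1) ((M + 2 * a * P) / S + 1) α β) ^ k).trace =
      ∑ w : Fin (2 * k) → Ed M P, if Cl w then
        ((∏ t, wt S y (w t).1 : ℝ) : ℂ) * Φ w else 0 := by
    intro y
    rw [htr (fun e => (wt S y e.1 : ℂ) * φ e) (mA c S M P a y (M / S + 1)
      ((M + 2 * a * P) / S + 1) α β) (by
        intro i j
        rw [mA, Matrix.of_apply, hldef, hrdef, hφdef])]
    apply sum_congr rfl
    intro w _
    have h1 : ∏ t : Fin (2 * k), (if (t : ℕ) % 2 = 0 then star ((wt S y (w t).1 : ℂ) * φ (w t))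
        else (wt S y (w t).1 : ℂ) * φ (w t)) = ((∏ t, wt S y (w t).1 : ℝ) : ℂ) * Φ w := by
      rw [hΦdef, Complex.ofReal_prod]
      simp only
      rw [← prod_mul_distrib]
      apply prod_congr rfl
      intro t _
      by_cases ht : (t : ℕ) % 2 = 0
      · rw [if_pos ht, if_pos ht, star_mul']
        congr 1
        exact Complex.conj_ofReal _
      · rw [if_neg ht, if_neg ht]
    rw [h1]
  have hsum : ∑ y ∈ Ico Y₁ (Y₁ + Y),
      (((mA c S M P a y (M / S + 1) ((M + 2 * a * P) / S + 1) α β)ᴴ *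
      mA c S M P a y (M / S + 1) ((M + 2 * a * P) / S + 1) α β) ^ k).trace =
      ∑ w : Fin (2 * k) → Ed M P, if Cl w then
        ((∑ y ∈ Ico Y₁ (Y₁ + Y), ∏ t, wt S y (w t).1 : ℝ) : ℂ) * Φ w else 0 := by
    rw [sum_congr rfl fun y _ => htrace y, sum_comm]
    apply sum_congr rfl
    intro w _
    by_cases hw : Cl w
    · simp only [hw, if_true]
      rw [← sum_mul, Complex.ofReal_sum]
    · simp only [hw, if_false, sum_const_zero]
  rw [← Complex.re_sum, hsum]
  have hb : ∀ w : Fin (2 * k) → Ed M P, ‖(if Cl w then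
      ((∑ y ∈ Ico Y₁ (Y₁ + Y), ∏ t, wt S y (w t).1 : ℝ) : ℂ) * Φ w else 0 : ℂ)‖ ≤
      (Y : ℝ) * 4 ^ k * (R * Q) ^ k * (if Wk (fun x : Ed M P => lc S x.1)
        (fun x : Ed M P => rc S a x.1) w then
        ∏ t, (uu (fun i => (w i).1) t / rr R Q (fun i => (w i).1) t) else 0) +
        (2 * (P : ℝ)) ^ (4 * k) := by
    intro w
    have hpr0 : 0 ≤ ∏ t, (uu (fun i => (w i).1) t / rr R Q (fun i => (w i).1) t) :=
      prod_nonneg fun t _ => div_nonneg (uu_nonneg _ _) (rr_pos hR0 hQ0 _ _).le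
    by_cases hw : Cl w
    · have hwk := hCl w hw
      rw [hldef, hrdef] at hwk
      rw [if_pos hw, if_pos hwk, norm_mul, Complex.norm_real, Real.norm_eq_abs]
      have h1 := hEXP P S (2 * k) Y₁ Y (fun t => (w t).1) hS hSP (fun t => (hEd (w t)).2)
      have h2 : |∑ y ∈ Ico Y₁ (Y₁ + Y), ∏ t, wt S y (w t).1| * ‖Φ w‖ ≤
          |∑ y ∈ Ico Y₁ (Y₁ + Y), ∏ t, wt S y (w t).1| * 1 :=
        mul_le_mul_of_nonneg_left (hΦ w) (abs_nonneg _)
      rw [mul_one] at h2
      refine h2.trans (h1.trans ?_)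
      rw [show 2 * (2 * k) = 4 * k by ring]
      apply add_le_add _ le_rfl
      by_cases hg : Gd (fun t => (w t).1)
      · rw [if_pos hg]
        have h3 := hNEW k (fun t => (w t).1) R Q hQ0 hQR hg
        have h4 : ∏ t, uu (fun t => (w t).1) t =
            (∏ t, (uu (fun i => (w i).1) t / rr R Q (fun i => (w i).1) t)) *
              ∏ t, rr R Q (fun t => (w t).1) t := by
          rw [← prod_mul_distrib]
          apply prod_congr rfl
          intro t _
          rw [div_mul_cancel₀ _ (rr_pos hR0 hQ0 _ _).ne']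
        rw [h4, h44]
        calc (Y : ℝ) * 4 ^ k * ((∏ t, (uu (fun i => (w i).1) t / rr R Q (fun i => (w i).1) t)) *
              ∏ t, rr R Q (fun t => (w t).1) t) =
              (Y : ℝ) * 4 ^ k * (∏ t, (uu (fun i => (w i).1) t / rr R Q (fun i => (w i).1) t)) *
              ∏ t, rr R Q (fun t => (w t).1) t := by ring
          _ ≤ (Y : ℝ) * 4 ^ k * (∏ t, (uu (fun i => (w i).1) t / rr R Q (fun i => (w i).1) t)) *
              (R * Q) ^ k := mul_le_mul_of_nonneg_left h3 (by positivity)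
          _ = _ := by ring
      · rw [if_neg hg]
        positivity
    · rw [if_neg hw, norm_zero]
      have h0 : 0 ≤ (if Wk (fun x : Ed M P => lc S x.1)
        (fun x : Ed M P => rc S a x.1) w then
        ∏ t, (uu (fun i => (w i).1) t / rr R Q (fun i => (w i).1) t) else 0) := by
        split_ifs
        · exact hpr0
        · exact le_rfl
      positivity
  have hcnt := hCNT M P S a (2 * k) R Q hS hSP (by omega) hR (by
    rw [hQ]
    push_cast
    apply le_of_eq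
    ring) hR0
  have hcard : (Fintype.card (Fin (2 * k) → Ed M P) : ℝ) = ((M : ℝ) * (Pr P).card) ^ (2 * k) := by
    rw [Fintype.card_fun, Fintype.card_fin, Fintype.card_coe, Ed, card_product, card_range]
    push_cast
    ring
  calc (∑ w : Fin (2 * k) → Ed M P, if Cl w then
        ((∑ y ∈ Ico Y₁ (Y₁ + Y), ∏ t, wt S y (w t).1 : ℝ) : ℂ) * Φ w else 0).re ≤
        ‖∑ w : Fin (2 * k) → Ed M P, if Cl w then
        ((∑ y ∈ Ico Y₁ (Y₁ + Y), ∏ t, wt S y (w t).1 : ℝ) : ℂ) * Φ w else 0‖ :=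
        Complex.re_le_norm _
    _ ≤ ∑ w : Fin (2 * k) → Ed M P, ((Y : ℝ) * 4 ^ k * (R * Q) ^ k *
        (if Wk (fun x : Ed M P => lc S x.1)
        (fun x : Ed M P => rc S a x.1) w then
        ∏ t, (uu (fun i => (w i).1) t / rr R Q (fun i => (w i).1) t) else 0) +
        (2 * (P : ℝ)) ^ (4 * k)) := norm_sum_le_of_le _ fun w _ => hb w
    _ = (Y : ℝ) * 4 ^ k * (R * Q) ^ k * (∑ w : Fin (2 * k) → Ed M P,
        if Wk (fun x : Ed M P => lc S x.1)
        (fun x : Ed M P => rc S a x.1) w then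
        ∏ t, (uu (fun i => (w i).1) t / rr R Q (fun i => (w i).1) t) else 0) +
        ((M : ℝ) * (Pr P).card) ^ (2 * k) * (2 * (P : ℝ)) ^ (4 * k) := by
        rw [sum_add_distrib, ← mul_sum, sum_const, card_univ, nsmul_eq_mul, hcard]
    _ ≤ (Y : ℝ) * 4 ^ k * (R * Q) ^ k * ((M : ℝ) / S * 2 ^ (2 * k)) +
        ((M : ℝ) * (Pr P).card) ^ (2 * k) * (2 * (P : ℝ)) ^ (4 * k) := by
        apply add_le_add _ le_rfl
        exact mul_le_mul_of_nonneg_left hcnt (by positivity)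
    _ = _ := by
        rw [h44, h16]
        ring

end Pool.Agent.H23.CE
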