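import Pool.Agent.H10.CE.Targets

/-!
# The trace as a sum over closed walks
-/

set_option autoImplicit false

open Finset Matrix Pool.Agent.H10.CE

namespace Pool.Agent.H23.CE

namespace WLK

theorem ite_iff {P Q : Prop} {dP : Decidable P} {dQ : Decidable Q} {α : Type} (h : P ↔ Q)
    (a b : α) : @ite α P dP a b = @ite α Q dQ a b := by
  by_cases hP : P
  · rw [if_pos hP, if_pos (h.1 hP)]
  · rw [if_neg hP, if_neg (fun hq => hP (h.2 hq))]

/-- chains -/
def Ch {κ : Type} {J : ℕ} (s t : κ → Fin J) {k : ℕ} (v : Fin (k + 1) → κ) : Prop :=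
  ∀ i : Fin k, t (v i.castSucc) = s (v i.succ)

theorem ch_cons {κ : Type} {J : ℕ} (s t : κ → Fin J) {k : ℕ} (q : κ) (v : Fin (k + 1) → κ) :
    Ch s t (Fin.cons q v : Fin (k + 2) → κ) ↔ t q = s (v 0) ∧ Ch s t v := by
  unfold Ch
  rw [Fin.forall_fin_succ]
  simp only [Fin.castSucc_zero, Fin.cons_zero, Fin.cons_succ, ← Fin.succ_castSucc]

open Classical in
theorem pow_walk {κ : Type} [Fintype κ] {J : ℕ} (s t : κ → Fin J) (d : κ → ℂ)
    (B : Matrix (Fin J) (Fin J) ℂ)
    (hB : ∀ j j', B j j' = ∑ q, if s q = j ∧ t q = j' then d q else 0) (k : ℕ) (j j' : Fin J) :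
    (B ^ (k + 1)) j j' = ∑ v : Fin (k + 1) → κ,
      if s (v 0) = j ∧ Ch s t v ∧ t (v (Fin.last k)) = j' then ∏ i, d (v i) else 0 := by
  induction k generalizing j with
  | zero =>
    have h0 : (B ^ (0 + 1)) j j' = B j j' := by simp
    rw [h0, hB, ← (Equiv.funUnique (Fin 1) κ).symm.sum_comp]
    apply sum_congr rfl
    intro q _
    simp [Ch]
  | succ k ih =>
    rw [pow_succ', Matrix.mul_apply, ← (Fin.consEquiv (fun _ => κ)).sum_comp,
      Fintype.sum_prod_type]
    have h1 : ∀ x : Fin J, B j x * (B ^ (k + 1)) x j' =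
        ∑ q : κ, ∑ v : Fin (k + 1) → κ, if x = t q then
          (if s q = j ∧ t q = s (v 0) ∧ Ch s t v ∧ t (v (Fin.last k)) = j' then
            d q * ∏ i, d (v i) else 0) else 0 := by
      intro x
      rw [hB, ih x, sum_mul_sum]
      apply sum_congr rfl
      intro q _
      apply sum_congr rfl
      intro v _
      by_cases hx : x = t q
      · subst hx
        by_cases h2 : s q = j
        · by_cases h3 : s (v 0) = t q
          · by_cases h4 : Ch s t v ∧ t (v (Fin.last k)) = j'
            · simp [h2, h3, h4]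
            · simp only [h2, h3, h4, true_and, and_false, if_false, mul_zero, if_true]
          · have h5 : ¬ t q = s (v 0) := fun h => h3 h.symm
            simp [h3, h5]
        · simp [h2]
      · have h5 : ¬ t q = x := fun h => hx h.symm
        simp [hx, h5]
    rw [sum_congr rfl fun x _ => h1 x, sum_comm]
    apply sum_congr rfl
    intro q _
    rw [sum_comm]
    apply sum_congr rfl
    intro v _
    rw [sum_ite_eq' univ (t q)]
    simp only [mem_univ, if_true]
    have h6 : (Fin.consEquiv (fun _ => κ)) (q, v) = (Fin.cons q v : Fin (k + 2) → κ) := rfl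
    rw [h6]
    have h7 : (Fin.cons q v : Fin (k + 2) → κ) 0 = q := rfl
    have h8 : (Fin.cons q v : Fin (k + 2) → κ) (Fin.last (k + 1)) = v (Fin.last k) := by
      rw [← Fin.succ_last, Fin.cons_succ]
    have h9 : ∏ i, d ((Fin.cons q v : Fin (k + 2) → κ) i) = d q * ∏ i, d (v i) := by
      rw [Fin.prod_univ_succ]
      simp
    rw [h7, h8, h9]
    apply ite_iff
    rw [ch_cons]
    tauto

open Classical in
theorem trace_walk {κ : Type} [Fintype κ] {J : ℕ} (s t : κ → Fin J) (d : κ → ℂ)
    (B : Matrix (Fin J) (Fin J) ℂ)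
    (hB : ∀ j j', B j j' = ∑ q, if s q = j ∧ t q = j' then d q else 0) (k : ℕ) :
    (B ^ (k + 1)).trace = ∑ v : Fin (k + 1) → κ,
      if Ch s t v ∧ t (v (Fin.last k)) = s (v 0) then ∏ i, d (v i) else 0 := by
  unfold Matrix.trace
  simp only [Matrix.diag_apply]
  rw [sum_congr rfl fun j _ => pow_walk s t d B hB k j j, sum_comm]
  apply sum_congr rfl
  intro v _
  rw [sum_eq_single (s (v 0))]
  · simp
  · intro j _ hj
    rw [if_neg]
    rintro ⟨h, -⟩
    exact hj h.symm
  · intro h
    exact absurd (mem_univ _) h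

/-- the index of a pair -/
def ix (k : ℕ) : Fin k × Fin 2 ≃ Fin (2 * k) :=
  finProdFinEquiv.trans (finCongr (Nat.mul_comm k 2))

theorem ix_val (k : ℕ) (a : Fin k) (b : Fin 2) : ((ix k (a, b) : Fin (2 * k)) : ℕ) = b + 2 * a := by
  simp [ix]

/-- pairs of edges -/
def pr {ι : Type} (k : ℕ) : (Fin (2 * k) → ι) ≃ (Fin k → ι × ι) where
  toFun w a := (w (ix k (a, 0)), w (ix k (a, 1)))
  invFun v x := if ((ix k).symm x).2 = 0 then (v ((ix k).symm x).1).1 else (v ((ix k).symm x).1).2
  left_inv w := by
    funext x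
    obtain ⟨⟨a, b⟩, rfl⟩ := (ix k).surjective x
    simp only [Equiv.symm_apply_apply]
    fin_cases b <;> simp
  right_inv v := by
    funext a
    simp

end WLK

open WLK in
open Classical in
theorem pf_WLK : T_WLK := by
  intro ι _ I J k l r hk hl hr
  obtain ⟨k, rfl⟩ : ∃ k', k = k' + 1 := ⟨k - 1, by omega⟩
  let s : ι × ι → Fin J := fun q => ⟨r q.1, hr _⟩
  let t : ι × ι → Fin J := fun q => ⟨r q.2, hr _⟩
  refine ⟨fun w => (∀ a, l (pr (k + 1) w a).1 = l (pr (k + 1) w a).2) ∧
    Ch s t (pr (k + 1) w) ∧ t (pr (k + 1) w (Fin.last k)) = s (pr (k + 1) w 0), ?_, ?_⟩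
  · rintro w ⟨h1, h2, -⟩ i j hij
    obtain ⟨⟨a, b⟩, rfl⟩ := (ix (k + 1)).surjective i
    obtain ⟨⟨a', b'⟩, rfl⟩ := (ix (k + 1)).surjective j
    rw [ix_val, ix_val] at hij
    rw [ix_val]
    have hb := b.isLt
    have hb' := b'.isLt
    by_cases hb0 : b = 0
    · subst hb0
      have hb1 : b' = 1 := by
        apply Fin.ext
        simp at hij ⊢
        omega
      subst hb1
      have ha : a' = a := by
        apply Fin.ext
        simp at hij ⊢
        omega
      subst ha
      rw [if_pos (by simp)]
      exact h1 a'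
    · have hb1 : b = 1 := by
        apply Fin.ext
        have : (b : ℕ) ≠ 0 := fun h => hb0 (Fin.ext h)
        simp
        omega
      subst hb1
      have hb2 : b' = 0 := by
        apply Fin.ext
        simp at hij ⊢
        omega
      subst hb2
      have ha : (a' : ℕ) = a + 1 := by
        simp at hij
        omega
      rw [if_neg (by simp)]
      have hak : (a : ℕ) < k := by
        have := a'.isLt
        omega
      have h3 := h2 ⟨a, hak⟩
      have h4 : (⟨a, hak⟩ : Fin k).castSucc = a := Fin.ext rfl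
      have h5 : (⟨a, hak⟩ : Fin k).succ = a' := Fin.ext (by simp [ha])
      rw [h4, h5] at h3
      exact congrArg Fin.val h3
  · intro c A hA
    let d : ι × ι → ℂ := fun q => if l q.1 = l q.2 then star (c q.1) * c q.2 else 0
    have hB : ∀ j j', (Aᴴ * A) j j' = ∑ q, if s q = j ∧ t q = j' then d q else 0 := by
      intro j j'
      rw [Matrix.mul_apply, Fintype.sum_prod_type]
      have h1 : ∀ i : Fin I, Aᴴ j i * A i j' = ∑ e : ι, ∑ f : ι, if i = ⟨l e, hl e⟩ then
          (if r e = j ∧ r f = j' ∧ l e = l f then star (c e) * c f else 0) else 0 := by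
        intro i
        rw [Matrix.conjTranspose_apply, hA, hA, star_sum, sum_mul_sum]
        apply sum_congr rfl
        intro e _
        apply sum_congr rfl
        intro f _
        by_cases hi : i = ⟨l e, hl e⟩
        · have h2 : l e = (i : ℕ) := by rw [hi]
          rw [if_pos hi]
          by_cases h3 : r e = j
          · by_cases h4 : r f = j'
            · by_cases h5 : l e = l f
              · have h6 : l f = (i : ℕ) := by rw [← h5, h2]
                rw [if_pos ⟨h2, h3⟩, if_pos ⟨h6, h4⟩, if_pos ⟨h3, h4, h5⟩]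
              · have h6 : ¬ l f = (i : ℕ) := fun h => h5 (by rw [h2, h])
                rw [if_neg (fun h : l f = (i : ℕ) ∧ r f = (j' : ℕ) => h6 h.1), mul_zero,
                  if_neg (fun h => h5 h.2.2)]
            · rw [if_neg (fun h : l f = (i : ℕ) ∧ r f = (j' : ℕ) => h4 h.2), mul_zero,
                if_neg (fun h => h4 h.2.1)]
          · rw [if_neg (fun h => h3 h.2), star_zero, zero_mul, if_neg (fun h => h3 h.1)]
        · have h2 : ¬ l e = (i : ℕ) := fun h => hi (Fin.ext h.symm)
          rw [if_neg hi, if_neg (fun h => h2 h.1), star_zero, zero_mul]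
      rw [sum_congr rfl fun i _ => h1 i, sum_comm]
      apply sum_congr rfl
      intro e _
      rw [sum_comm]
      apply sum_congr rfl
      intro f _
      rw [sum_ite_eq' univ (⟨l e, hl e⟩ : Fin I)]
      simp only [mem_univ, if_true]
      simp only [s, t, d, Fin.ext_iff]
      by_cases h3 : r e = j
      · by_cases h4 : r f = j'
        · simp [h3, h4]
        · simp [h4]
      · simp [h3]
    rw [trace_walk s t d _ hB k, ← (pr (k + 1)).sum_comp]
    apply sum_congr rfl
    intro w _
    have hp : (∏ t : Fin (2 * (k + 1)), (if (t : ℕ) % 2 = 0 then star (c (w t)) else c (w t))) =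
        ∏ a : Fin (k + 1), (star (c (pr (k + 1) w a).1) * c (pr (k + 1) w a).2) := by
      rw [← (ix (k + 1)).prod_comp, Fintype.prod_prod_type]
      apply prod_congr rfl
      intro a _
      rw [Fin.prod_univ_two]
      simp only [ix_val]
      rw [if_pos (by simp), if_neg (by simp)]
      rfl
    rw [hp]
    by_cases h1 : ∀ a, l (pr (k + 1) w a).1 = l (pr (k + 1) w a).2
    · have h2 : ∏ i, d (pr (k + 1) w i) =
          ∏ a : Fin (k + 1), (star (c (pr (k + 1) w a).1) * c (pr (k + 1) w a).2) := by
        apply prod_congr rfl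
        intro a _
        simp only [d]
        rw [if_pos (h1 a)]
      rw [h2]
      apply ite_iff
      simp only [h1, implies_true, true_and]
    · have hneg : ¬ ((∀ a, l (pr (k + 1) w a).1 = l (pr (k + 1) w a).2) ∧
          Ch s t (pr (k + 1) w) ∧ t (pr (k + 1) w (Fin.last k)) = s (pr (k + 1) w 0)) :=
        fun h => h1 h.1
      push Not at h1
      obtain ⟨a, ha⟩ := h1
      have h2 : ∏ i, d (pr (k + 1) w i) = 0 := by
        apply prod_eq_zero (mem_univ a)
        simp only [d]
        rw [if_neg ha]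
      rw [h2, ite_self]
      symm
      apply if_neg
      exact hneg

end Pool.Agent.H23.CE
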